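import Mathlib
import Pool.Agent.H16.SatG

set_option autoImplicit false

namespace Pool.Agent.Results.MP_f1fe0b_lc.Counter

open Pool.Agent.H16.SatG

/-- A three-player game in which every induced subgame has a strict pure Nash equilibrium
but which is not generalized weakly acyclic. -/
theorem result :
    ∃ G : Game, G.n = 3 ∧ (∀ (N : Set (Fin G.n)) (a₀ : G.Prof), G.SubStrict N a₀) ∧ ¬ G.GWA :=
  ⟨G0, rfl, strict0, notGWA⟩

end Pool.Agent.Results.MP_f1fe0b_lc.Counter
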